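import Pool.Agent.Run7.h991.MU.Iface

set_option autoImplicit false

/-! # Piece LAG of project MU (helper991, MP_dde81e_an) -/

open Metric

namespace Run7.h324.MU

open H991.MU

/-- the choice of `θ` -/
lemma exists_theta {δ d : ℝ} (hδ : 0 < δ) (hd : 0 < d) :
    ∃ θ : ℝ, 0 < θ ∧ θ ≤ δ / 2 ∧ θ ≤ 1 / 2 ∧ θ * Real.log (54 / θ) ≤ d / 4 := by
  refine ⟨min (min (δ / 2) (1 / 2)) (d ^ 2 / 3456), by positivity, ?_, ?_, ?_⟩
  · exact (min_le_left _ _).trans (min_le_left _ _)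
  · exact (min_le_left _ _).trans (min_le_right _ _)
  · set θ := min (min (δ / 2) (1 / 2)) (d ^ 2 / 3456) with hθ
    have hθ0 : 0 < θ := by positivity
    have hθd : θ ≤ d ^ 2 / 3456 := min_le_right _ _
    have h54 : 0 < 54 / θ := by positivity
    set u := Real.sqrt (54 / θ) with hu
    have hu0 : 0 < u := Real.sqrt_pos.mpr h54
    have hu2 : 54 / θ = u ^ 2 := (Real.sq_sqrt h54.le).symm
    have h1 : Real.log (54 / θ) ≤ 2 * u := by
      rw [hu2, Real.log_pow]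
      have := Real.log_le_sub_one_of_pos hu0
      push_cast
      linarith
    have h2 : (θ * u) ^ 2 ≤ (d / 8) ^ 2 := by
      rw [mul_pow, ← hu2]
      have : θ ^ 2 * (54 / θ) = 54 * θ := by field_simp
      rw [this]
      nlinarith
    have h3 : θ * u ≤ d / 8 := abs_le_of_sq_le_sq' h2 (by positivity) |>.2
    calc θ * Real.log (54 / θ) ≤ θ * (2 * u) := mul_le_mul_of_nonneg_left h1 hθ0.le
      _ ≤ d / 4 := by linarith

/-- `m ↦ m log (K / m)` increases up to `K / e`. -/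
lemma mul_log_le {m x K : ℝ} (hm : 0 < m) (hmx : m ≤ x) (hK : 1 ≤ Real.log (K / x)) (hK0 : 0 < K) :
    m * Real.log (K / m) ≤ x * Real.log (K / x) := by
  have hx : 0 < x := hm.trans_le hmx
  have h1 : Real.log (K / m) = Real.log (K / x) + Real.log (x / m) := by
    rw [← Real.log_mul (by positivity) (by positivity)]
    congr 1
    field_simp
  have h2 : Real.log (x / m) ≤ x / m - 1 := Real.log_le_sub_one_of_pos (by positivity)
  have h3 : m * (x / m - 1) = x - m := by field_simp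
  have h4 : m * Real.log (x / m) ≤ x - m := by
    rw [← h3]
    exact mul_le_mul_of_nonneg_left h2 hm.le
  rw [h1, mul_add]
  nlinarith

/-- The Lagrange interpolation polynomial at the nodes in `B`. -/
noncomputable def lagr (g : ℂ → ℂ) (B : Finset ℕ) (w : ℂ) : ℂ :=
  ∑ i ∈ B, g (i : ℂ) * ∏ j ∈ B.erase i, ((w - j) / ((i : ℂ) - j))

lemma lagr_node (g : ℂ → ℂ) (B : Finset ℕ) {n : ℕ} (hn : n ∈ B) : lagr g B n = g n := by
  unfold lagr
  rw [Finset.sum_eq_single n]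
  · rw [Finset.prod_eq_one, mul_one]
    intro j hj
    have hne : (n : ℂ) - j ≠ 0 := by
      rw [sub_ne_zero]
      exact_mod_cast (Finset.ne_of_mem_erase hj).symm
    exact div_self hne
  · intro i _ hin
    have : n ∈ B.erase i := Finset.mem_erase.mpr ⟨hin.symm, hn⟩
    rw [Finset.prod_eq_zero this, mul_zero]
    simp
  · intro h
    exact absurd hn h

lemma differentiable_lagr (g : ℂ → ℂ) (B : Finset ℕ) : Differentiable ℂ (lagr g B) := by
  unfold lagr
  fun_prop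

/-- the bound for the interpolation polynomial -/
lemma norm_lagr_le (hLPR : S_LPR) {g : ℂ → ℂ} {B : Finset ℕ} {ρ Y e : ℝ} {m : ℕ}
    (hρ : 0 < ρ) (hm : 0 < m) (hcard : B.card = m + 1) (he : 0 ≤ e)
    (hB : ∀ n ∈ B, |(n : ℝ) - Y| ≤ ρ ∧ ‖g (n : ℂ)‖ ≤ e) {w : ℂ} (hw : w ∈ ball (Y : ℂ) (8 * ρ)) :
    ‖lagr g B w‖ ≤ (m + 1) * e * (54 * ρ / m) ^ m := by
  have hterm : ∀ i ∈ B, ‖g (i : ℂ) * ∏ j ∈ B.erase i, ((w - j) / ((i : ℂ) - j))‖
      ≤ e * (54 * ρ / m) ^ m := by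
    intro i hi
    rw [norm_mul]
    refine mul_le_mul (hB i hi).2 ?_ (norm_nonneg _) he
    rw [norm_prod]
    have hLP := hLPR B i hi
    have hc : (B.erase i).card = m := by rw [Finset.card_erase_of_mem hi, hcard]; rfl
    have hm1 : B.card - 1 = m := by rw [hcard]; rfl
    have hcr : (B.card : ℝ) - 1 = m := by rw [hcard]; push_cast; ring
    rw [hm1, hcr] at hLP
    have hmR : (0 : ℝ) < m := by exact_mod_cast hm
    have hD : 0 < ∏ j ∈ B.erase i, |(i : ℝ) - (j : ℝ)| :=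
      lt_of_lt_of_le (by positivity) hLP
    have h1 : ∏ j ∈ B.erase i, ‖(w - j) / ((i : ℂ) - j)‖
        = (∏ j ∈ B.erase i, ‖w - j‖) / ∏ j ∈ B.erase i, |(i : ℝ) - (j : ℝ)| := by
      rw [← Finset.prod_div_distrib]
      refine Finset.prod_congr rfl fun j _ => ?_
      rw [norm_div]
      congr 1
      have : ((i : ℂ) - j) = (((i : ℝ) - (j : ℝ) : ℝ) : ℂ) := by push_cast; ring
      rw [this, Complex.norm_real, Real.norm_eq_abs]
    have h2 : ∏ j ∈ B.erase i, ‖w - j‖ ≤ (9 * ρ) ^ m := by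
      rw [← hc, ← Finset.prod_const]
      refine Finset.prod_le_prod (fun _ _ => norm_nonneg _) fun j hj => ?_
      have hj' := (hB j (Finset.mem_of_mem_erase hj)).1
      have hw' : ‖w - (Y : ℂ)‖ < 8 * ρ := by rwa [mem_ball, dist_eq_norm] at hw
      have h3 : ‖(Y : ℂ) - (j : ℂ)‖ ≤ ρ := by
        have : (Y : ℂ) - (j : ℂ) = ((Y - (j : ℝ) : ℝ) : ℂ) := by push_cast; ring
        rw [this, Complex.norm_real, Real.norm_eq_abs, abs_sub_comm]
        exact hj'
      calc ‖w - (j : ℂ)‖ = ‖(w - (Y : ℂ)) + ((Y : ℂ) - (j : ℂ))‖ := by congr 1; ring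
        _ ≤ ‖w - (Y : ℂ)‖ + ‖(Y : ℂ) - (j : ℂ)‖ := norm_add_le _ _
        _ ≤ 9 * ρ := by linarith
    rw [h1, div_le_iff₀ hD]
    calc ∏ j ∈ B.erase i, ‖w - j‖ ≤ (9 * ρ) ^ m := h2
      _ = (54 * ρ / m) ^ m * ((m : ℝ) / 6) ^ m := by
          rw [← mul_pow]
          congr 1
          field_simp
          ring
      _ ≤ (54 * ρ / m) ^ m * ∏ j ∈ B.erase i, |(i : ℝ) - (j : ℝ)| :=
          mul_le_mul_of_nonneg_left hLP (by positivity)
  calc ‖lagr g B w‖ ≤ ∑ i ∈ B, ‖g (i : ℂ) * ∏ j ∈ B.erase i, ((w - j) / ((i : ℂ) - j))‖ :=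
        norm_sum_le _ _
    _ ≤ ∑ _i ∈ B, e * (54 * ρ / m) ^ m := Finset.sum_le_sum hterm
    _ = (m + 1) * e * (54 * ρ / m) ^ m := by
        rw [Finset.sum_const, hcard, nsmul_eq_mul]
        push_cast
        ring

theorem t_LAG (hZER : S_ZER) (hLPR : S_LPR) : S_LAG := by
  intro δ d hδ hd
  obtain ⟨θ, hθ0, hθδ, hθ1, hθl⟩ := exists_theta hδ hd
  have hlog2 : 0 < Real.log 2 := Real.log_pos (by norm_num)
  set c := min (θ * Real.log 2) (d / 2) / 2 with hc
  have hc0 : 0 < c := by positivity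
  have hc1 : 2 * c ≤ θ * Real.log 2 := by
    rw [hc]; linarith [min_le_left (θ * Real.log 2) (d / 2)]
  have hc2 : 2 * c ≤ d / 2 := by
    rw [hc]; linarith [min_le_right (θ * Real.log 2) (d / 2)]
  refine ⟨c, 2 / δ + 1 / θ + 2 + 32 / d ^ 2 + 3 / c, hc0, by positivity, ?_⟩
  intro ρ Y g B hρ₀ hg hg1 hB hcard w hw
  have p1 : 0 < 2 / δ := by positivity
  have p2 : 0 < 1 / θ := by positivity
  have p3 : 0 < 32 / d ^ 2 := by positivity
  have p4 : 0 < 3 / c := by positivity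
  have hρ2 : 2 ≤ ρ := by linarith
  have hρ : 0 < ρ := by linarith
  have hδρ : 2 ≤ δ * ρ := by
    have : 2 / δ ≤ ρ := by linarith
    rw [div_le_iff₀ hδ] at this
    linarith
  have hθρ : 1 ≤ θ * ρ := by
    have : 1 / θ ≤ ρ := by linarith
    rw [div_le_iff₀ hθ0] at this
    linarith
  have hdρ : 32 ≤ d ^ 2 * ρ := by
    have : 32 / d ^ 2 ≤ ρ := by linarith
    rw [div_le_iff₀ (by positivity)] at this
    linarith
  have hcρ : 3 ≤ c * ρ := by
    have : 3 / c ≤ ρ := by linarith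
    rw [div_le_iff₀ hc0] at this
    linarith
  set m := ⌊θ * ρ⌋₊ with hm
  have hm0 : 0 < m := Nat.floor_pos.mpr hθρ
  have hmR : (0 : ℝ) < m := by exact_mod_cast hm0
  have hmle : (m : ℝ) ≤ θ * ρ := Nat.floor_le (by positivity)
  have hmlt : θ * ρ < m + 1 := Nat.lt_floor_add_one _
  have hsB : m + 1 ≤ B.card := by
    have h1 : ((m + 1 : ℕ) : ℝ) ≤ B.card := by
      push_cast
      have : θ * ρ ≤ δ / 2 * ρ := mul_le_mul_of_nonneg_right hθδ hρ.le
      nlinarith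
    exact_mod_cast h1
  obtain ⟨B', hB'B, hB'c⟩ := Finset.exists_subset_card_eq hsB
  have hB' : ∀ n ∈ B', |(n : ℝ) - Y| ≤ ρ ∧ ‖g (n : ℂ)‖ ≤ Real.exp (-(d * ρ)) :=
    fun n hn => hB n (hB'B hn)
  -- the size of the interpolation polynomial
  have hpow : (54 * ρ / m) ^ m ≤ Real.exp (d / 4 * ρ) := by
    have h54 : 54 * ρ / (θ * ρ) = 54 / θ := by field_simp
    have hlog : 1 ≤ Real.log (54 * ρ / (θ * ρ)) := by
      rw [h54, Real.le_log_iff_exp_le (by positivity)]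
      have h1 : Real.exp 1 < 2.7182818286 := Real.exp_one_lt_d9
      have h2 : (54 : ℝ) ≤ 54 / θ := by
        rw [le_div_iff₀ hθ0]
        nlinarith
      linarith
    have h1 := mul_log_le hmR hmle hlog (by positivity)
    rw [h54] at h1
    have h2 : (54 * ρ / m) ^ m = Real.exp (m * Real.log (54 * ρ / m)) := by
      rw [mul_comm (m : ℝ) (Real.log _), Real.exp_mul, Real.exp_log (by positivity),
        Real.rpow_natCast]
    rw [h2]
    apply Real.exp_le_exp.mpr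
    nlinarith
  have hexpρ : ρ ≤ Real.exp (d * ρ / 4) := by
    have h1 := Real.quadratic_le_exp_of_nonneg (show (0 : ℝ) ≤ d * ρ / 4 by positivity)
    nlinarith
  have hP : ∀ z ∈ ball (Y : ℂ) (8 * ρ), ‖lagr g B' z‖ ≤ Real.exp (-(d / 2 * ρ)) := by
    intro z hz
    have h1 := norm_lagr_le hLPR hρ hm0 hB'c (Real.exp_pos _).le hB' hz
    have h2 : ((m : ℝ) + 1) ≤ ρ := by nlinarith
    calc ‖lagr g B' z‖ ≤ (m + 1) * Real.exp (-(d * ρ)) * (54 * ρ / m) ^ m := h1
      _ ≤ Real.exp (d * ρ / 4) * Real.exp (-(d * ρ)) * Real.exp (d / 4 * ρ) := by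
          gcongr
          exact h2.trans hexpρ
      _ = Real.exp (-(d / 2 * ρ)) := by
          rw [← Real.exp_add, ← Real.exp_add]
          congr 1
          ring
  have hP1 : ∀ z ∈ ball (Y : ℂ) (8 * ρ), ‖lagr g B' z‖ ≤ 1 := fun z hz =>
    (hP z hz).trans (Real.exp_le_one_iff.mpr (by have := mul_pos hd hρ; nlinarith))
  have hw8 : w ∈ ball (Y : ℂ) (8 * ρ) := by
    rw [mem_ball]
    rw [mem_closedBall] at hw
    linarith
  -- the difference has many zeros
  have hZ := hZER ρ 2 (Y : ℂ) (fun z => g z - lagr g B' z)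
    (B'.map ⟨fun n : ℕ => (n : ℂ), Nat.cast_injective⟩) hρ (by norm_num)
    (hg.sub (differentiable_lagr g B').differentiableOn)
    (fun z hz => by
      calc ‖g z - lagr g B' z‖ ≤ ‖g z‖ + ‖lagr g B' z‖ := norm_sub_le _ _
        _ ≤ 2 := by linarith [hg1 z hz, hP1 z hz])
    (fun a ha => by
      obtain ⟨n, hn, rfl⟩ := Finset.mem_map.mp ha
      refine ⟨?_, ?_⟩
      · have h1 := (hB' n hn).1
        change (n : ℂ) ∈ closedBall (Y : ℂ) ρ
        rw [mem_closedBall, dist_eq_norm]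
        have : (n : ℂ) - (Y : ℂ) = (((n : ℝ) - Y : ℝ) : ℂ) := by push_cast; ring
        rw [this, Complex.norm_real, Real.norm_eq_abs]
        exact h1
      · change g (n : ℂ) - lagr g B' (n : ℂ) = 0
        rw [lagr_node g B' hn, sub_self])
    w hw
  rw [Finset.card_map, hB'c] at hZ
  have hhalf : ((1 : ℝ) / 2) ^ (m + 1) ≤ Real.exp (-(2 * c * ρ)) := by
    have h1 : ((1 : ℝ) / 2) ^ (m + 1) = Real.exp (-(((m + 1 : ℕ) : ℝ) * Real.log 2)) := by
      rw [Real.exp_neg, mul_comm (((m + 1 : ℕ) : ℝ)) (Real.log _), Real.exp_mul,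
        Real.exp_log (by norm_num), Real.rpow_natCast, one_div, inv_pow]
    rw [h1]
    apply Real.exp_le_exp.mpr
    push_cast
    have h2 : 2 * c * ρ ≤ θ * Real.log 2 * ρ := mul_le_mul_of_nonneg_right hc1 hρ.le
    nlinarith
  have hexp2 : Real.exp (-(d / 2 * ρ)) ≤ Real.exp (-(2 * c * ρ)) := by
    apply Real.exp_le_exp.mpr
    nlinarith
  have h3 : 3 ≤ Real.exp (c * ρ) := by
    have := Real.add_one_le_exp (c * ρ)
    linarith
  have hfin : 3 * Real.exp (-(2 * c * ρ)) ≤ Real.exp (-(c * ρ)) := by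
    have h4 : Real.exp (-(c * ρ)) = Real.exp (c * ρ) * Real.exp (-(2 * c * ρ)) := by
      rw [← Real.exp_add]
      congr 1
      ring
    rw [h4]
    exact mul_le_mul_of_nonneg_right h3 (Real.exp_pos _).le
  calc ‖g w‖ = ‖(g w - lagr g B' w) + lagr g B' w‖ := by congr 1; ring
    _ ≤ ‖g w - lagr g B' w‖ + ‖lagr g B' w‖ := norm_add_le _ _
    _ ≤ 2 * (1 / 2) ^ (m + 1) + Real.exp (-(d / 2 * ρ)) := add_le_add hZ (hP w hw8)
    _ ≤ 2 * Real.exp (-(2 * c * ρ)) + Real.exp (-(2 * c * ρ)) := by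
        gcongr
    _ = 3 * Real.exp (-(2 * c * ρ)) := by ring
    _ ≤ Real.exp (-(c * ρ)) := hfin

end Run7.h324.MU
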