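import Pool.Agent.Run7.h991.MU.Iface

set_option autoImplicit false

/-! # Piece MAIN of project MU (helper991, MP_dde81e_an) -/

open Metric

namespace Run7.h324.MU

open H991.MU

/-- The ratio condition of `S_CHORD` near a point of the ray. -/
lemma ratio_le {x₀ y₀ κ R τ s X' Y' : ℝ} (hτ : 0 < τ) (hκ : 0 < κ) (hR : 0 < R)
    (hx : τ / 2 ≤ x₀) (hy0 : 0 < y₀) (hy1 : y₀ ≤ 1) (hκx : 16 * κ ≤ x₀)
    (hs : 16 * (1 + 2 / τ) ≤ s) (hX : |X' - R * x₀| ≤ 8 * (κ * R)) (hY : |Y' - R * y₀| ≤ 8 * (κ * R)) :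
    0 < X' ∧ |x₀ * Y' / X' - y₀| ≤ s * κ := by
  have hx0 : 0 < x₀ := by linarith
  have hX1 : R * x₀ / 2 ≤ X' := by
    have := (abs_le.mp hX).1
    nlinarith
  have hX0 : 0 < X' := lt_of_lt_of_le (by positivity) hX1
  refine ⟨hX0, ?_⟩
  have h1 : x₀ * Y' / X' - y₀ = (x₀ * (Y' - R * y₀) - y₀ * (X' - R * x₀)) / X' := by
    field_simp
    ring
  rw [h1, abs_div, abs_of_pos hX0, div_le_iff₀ hX0]
  have h2 : |x₀ * (Y' - R * y₀) - y₀ * (X' - R * x₀)| ≤ (x₀ + y₀) * (8 * (κ * R)) := by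
    calc |x₀ * (Y' - R * y₀) - y₀ * (X' - R * x₀)|
        ≤ |x₀ * (Y' - R * y₀)| + |y₀ * (X' - R * x₀)| := abs_sub _ _
      _ = x₀ * |Y' - R * y₀| + y₀ * |X' - R * x₀| := by
          rw [abs_mul, abs_mul, abs_of_pos hx0, abs_of_pos hy0]
      _ ≤ x₀ * (8 * (κ * R)) + y₀ * (8 * (κ * R)) := by gcongr
      _ = (x₀ + y₀) * (8 * (κ * R)) := by ring
  refine h2.trans ?_
  have h3 : x₀ + y₀ ≤ (1 + 2 / τ) * x₀ := by
    have h4 : 1 ≤ 2 / τ * x₀ := by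
      rw [div_mul_eq_mul_div, le_div_iff₀ hτ]
      linarith
    linarith
  have h5 : 0 ≤ s := le_trans (by positivity) hs
  calc (x₀ + y₀) * (8 * (κ * R)) ≤ ((1 + 2 / τ) * x₀) * (8 * (κ * R)) := by
        gcongr
    _ = 16 * (1 + 2 / τ) * κ * (R * x₀ / 2) := by ring
    _ ≤ s * κ * X' := by gcongr

theorem t_MAIN (hAFUN : S_AFUN) (hCHORD : S_CHORD) (hTEL : S_TEL) (hRAYA : S_RAYA) (hLOC : S_LOC)
    (hCOUNT : S_COUNT) : S_MAIN := by
  intro Ω ε δ hε hε1 hδ hang hdens F hF hzero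
  by_contra hcon
  push Not at hcon
  obtain ⟨p₀, hp₀, hp₀F⟩ := hcon
  obtain ⟨A, hExp, hConc⟩ := hAFUN F hF ⟨p₀, hp₀, hp₀F⟩
  obtain ⟨c, ρ₀, hc, hρ₀, hloc⟩ := hLOC (δ / 16) (by positivity)
  -- the constants
  set η := c / 2 with hη
  have hη0 : 0 < η := by positivity
  set τ := min 1 (δ * ε / 4) with hτ
  have hτ0 : 0 < τ := by positivity
  have hτ1 : τ ≤ 1 := min_le_left _ _
  have hτ2 : τ ^ 2 ≤ δ * ε / 4 := by
    have h1 : τ ≤ δ * ε / 4 := min_le_right _ _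
    nlinarith
  have hετ : 0 < ε * τ := by positivity
  have hετ1 : ε * τ ≤ τ := by nlinarith
  set s := ⌈16 * (1 + 2 / τ)⌉₊ with hs
  have hs16 : 16 * (1 + 2 / τ) ≤ (s : ℝ) := Nat.le_ceil _
  have hsR : (0 : ℝ) < s := lt_of_lt_of_le (by positivity) hs16
  have hs1 : 1 ≤ s := by exact_mod_cast hsR
  obtain ⟨Λ, hΛ, hTel⟩ := hTEL A hConc (ε * τ / 4) (by positivity)
  set Bd := (s : ℝ) ^ 2 * Λ / η + 1 with hBd
  have hBd0 : 0 < Bd := by positivity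
  obtain ⟨κ, hκ, hκ1, hκ2, hκ3⟩ : ∃ κ : ℝ, 0 < κ ∧ κ ≤ ε * τ / 64 ∧ s * κ ≤ ε * τ / 8 ∧
      κ * Bd ≤ δ / 32 := by
    refine ⟨min (min (ε * τ / 64) (ε * τ / (8 * s))) (δ / (32 * Bd)), by positivity, ?_, ?_, ?_⟩
    · exact (min_le_left _ _).trans (min_le_left _ _)
    · have h1 : min (min (ε * τ / 64) (ε * τ / (8 * s))) (δ / (32 * Bd)) ≤ ε * τ / (8 * s) :=
        (min_le_left _ _).trans (min_le_right _ _)
      calc (s : ℝ) * min (min (ε * τ / 64) (ε * τ / (8 * s))) (δ / (32 * Bd))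
          ≤ s * (ε * τ / (8 * s)) := by gcongr
        _ = ε * τ / 8 := by field_simp
    · have h1 : min (min (ε * τ / 64) (ε * τ / (8 * s))) (δ / (32 * Bd)) ≤ δ / (32 * Bd) :=
        min_le_right _ _
      calc min (min (ε * τ / 64) (ε * τ / (8 * s))) (δ / (32 * Bd)) * Bd
          ≤ δ / (32 * Bd) * Bd := by gcongr
        _ = δ / 32 := by field_simp
  have hκone : κ ≤ 1 := by nlinarith
  obtain ⟨a, b, hbad, ha, ha1, hb, hb1, hR⟩ := hCOUNT Ω ε δ τ κ Bd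
    (fun a b => η * κ < D2 A (a * κ) (b * κ) (s * κ)) hε hε1 hδ hτ0 hκ hκone hBd0 hτ2
    (by linarith) hκ3 hang hdens (by
      intro a ha ha1 B hB
      have h1 := hTel (a * κ) κ η s (by linarith) ha1 hκ hη0 hs1 B (fun b hb => by
        obtain ⟨h1, h2⟩ := hB b hb
        exact ⟨by linarith, h2⟩)
      have h2 : (B.card : ℝ) ≤ (s : ℝ) ^ 2 * Λ / η := by
        rw [le_div_iff₀ hη0]
        exact h1
      linarith)
  push Not at hbad
  set x₀ := (a : ℝ) * κ with hx₀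
  set y₀ := (b : ℝ) * κ with hy₀
  have hx0 : 0 < x₀ := by linarith
  have hy0 : 0 < y₀ := by linarith
  have hsκ : (s : ℝ) * κ < y₀ := by linarith
  obtain ⟨l₁, l₂, hl, hle⟩ := hCHORD A hConc x₀ y₀ (s * κ) hx0 (by positivity) hsκ
  set κ' := min κ (c * κ / (4 * (|l₁| + |l₂| + 1))) with hκ'
  have hκ'0 : 0 < κ' := by positivity
  have hκ'κ : κ' ≤ κ := min_le_left _ _
  have hκ'l : (|l₁| + |l₂|) * κ' ≤ c * κ / 4 := by
    have h1 : κ' ≤ c * κ / (4 * (|l₁| + |l₂| + 1)) := min_le_right _ _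
    have h2 : 0 ≤ |l₁| + |l₂| := by positivity
    calc (|l₁| + |l₂|) * κ' ≤ (|l₁| + |l₂| + 1) * κ' := by nlinarith
      _ ≤ (|l₁| + |l₂| + 1) * (c * κ / (4 * (|l₁| + |l₂| + 1))) := by gcongr
      _ = c * κ / 4 := by field_simp
  refine hRAYA F A hF hExp hConc x₀ y₀ (c * κ / 2) κ' hx0 hy0 (by positivity) hκ'0 ?_
  intro R₀
  obtain ⟨R, hRR, Z, hZΩ, hZ, hZc⟩ := hR (max (max R₀ 1) (ρ₀ / κ))
  have hRR₀ : R₀ ≤ R := ((le_max_left _ _).trans (le_max_left _ _)).trans hRR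
  have hR1 : 1 ≤ R := ((le_max_right _ _).trans (le_max_left _ _)).trans hRR
  have hR0 : 0 < R := by linarith
  have hρR : ρ₀ ≤ κ * R := by
    have : ρ₀ / κ ≤ R := (le_max_right _ _).trans hRR
    rw [div_le_iff₀ hκ] at this
    linarith
  refine ⟨R, hRR₀, ?_⟩
  -- real parts near the ray
  have hre : ∀ (z : ℂ) (v r : ℝ), ‖z - ((v : ℝ) : ℂ)‖ ≤ r → |z.re - v| ≤ r := by
    intro z v r h
    have h1 := Complex.abs_re_le_norm (z - (v : ℂ))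
    rw [Complex.sub_re, Complex.ofReal_re] at h1
    exact h1.trans h
  have hkey : ∀ z w : ℂ, ‖z - ((R * x₀ : ℝ) : ℂ)‖ ≤ 8 * (κ * R) →
      ‖w - ((R * y₀ : ℝ) : ℂ)‖ ≤ 8 * (κ * R) →
      0 < z.re ∧ 0 < w.re ∧ l₁ * z.re + l₂ * w.re ≤ A z.re w.re := by
    intro z w hz hw
    have h1 := hre _ _ _ hz
    have h2 := hre _ _ _ hw
    obtain ⟨h3, h4⟩ := ratio_le (s := s) hτ0 hκ hR0 ha hy0 hb1 (by linarith) hs16 h1 h2
    have h5 : 0 < w.re := by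
      have := (abs_le.mp h2).1
      nlinarith
    exact ⟨h3, h5, hle _ _ h3 h5 h4⟩
  have hbound : ∀ z w : ℂ, 0 < z.re → 0 < w.re → ‖F (z, w)‖ ≤ Real.exp (-(A z.re w.re)) := by
    intro z w hz hw
    have h1 := (hExp z.re w.re hz hw).1 1 one_pos z.im w.im
    simpa using h1
  have hexp : ∀ z w : ℂ, ‖Complex.exp (l₁ * z + l₂ * w)‖ = Real.exp (l₁ * z.re + l₂ * w.re) := by
    intro z w
    rw [Complex.norm_exp]
    simp
  have hL := hloc (κ * R) (R * x₀) (R * y₀) (fun p => F p * Complex.exp (l₁ * p.1 + l₂ * p.2)) Z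
    hρR ?_ ?_ ?_ ?_
  · intro z w hz hw
    have hz1 : ‖z - ((R * x₀ : ℝ) : ℂ)‖ ≤ κ * R := hz.trans (by gcongr)
    have hw1 : ‖w - ((R * y₀ : ℝ) : ℂ)‖ ≤ κ * R := hw.trans (by gcongr)
    have h1 := hL z (by rw [mem_closedBall, dist_eq_norm]; exact hz1) w
      (by rw [mem_closedBall, dist_eq_norm]; exact hw1)
    have h2 : ‖F (z, w)‖ * Real.exp (l₁ * z.re + l₂ * w.re) ≤ Real.exp (-(c * (κ * R))) := by
      rw [← hexp, ← norm_mul]
      exact h1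
    have h3 : ‖F (z, w)‖ ≤ Real.exp (-(c * (κ * R)) - (l₁ * z.re + l₂ * w.re)) := by
      rw [Real.exp_sub, le_div_iff₀ (Real.exp_pos _)]
      exact h2
    refine h3.trans (Real.exp_le_exp.mpr ?_)
    have h4 := hre _ _ _ hz
    have h5 := hre _ _ _ hw
    have h6 : R * (l₁ * x₀ + l₂ * y₀) - (|l₁| + |l₂|) * (κ' * R) ≤ l₁ * z.re + l₂ * w.re := by
      have h7 : |l₁ * (z.re - R * x₀)| ≤ |l₁| * (κ' * R) := by
        rw [abs_mul]
        exact mul_le_mul_of_nonneg_left h4 (abs_nonneg _)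
      have h8 : |l₂ * (w.re - R * y₀)| ≤ |l₂| * (κ' * R) := by
        rw [abs_mul]
        exact mul_le_mul_of_nonneg_left h5 (abs_nonneg _)
      have h9 := (abs_le.mp h7).1
      have h10 := (abs_le.mp h8).1
      nlinarith
    have h7 : (|l₁| + |l₂|) * (κ' * R) ≤ c * κ / 4 * R := by
      rw [← mul_assoc]
      gcongr
    have h8 : A x₀ y₀ - c * κ / 4 ≤ l₁ * x₀ + l₂ * y₀ := by
      have : D2 A x₀ y₀ (s * κ) ≤ c / 2 * κ := hbad
      linarith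
    have h9 : R * (A x₀ y₀ - c * κ / 4) ≤ R * (l₁ * x₀ + l₂ * y₀) := by gcongr
    nlinarith
  · -- differentiability
    have h1 : DifferentiableOn ℂ F (ball (((R * x₀ : ℝ) : ℂ)) (8 * (κ * R)) ×ˢ
        ball (((R * y₀ : ℝ) : ℂ)) (8 * (κ * R))) := by
      refine hF.1.mono ?_
      rintro ⟨z, w⟩ ⟨hz, hw⟩
      rw [mem_ball, dist_eq_norm] at hz hw
      obtain ⟨h1, h2, -⟩ := hkey z w hz.le hw.le
      exact ⟨h1, h2⟩
    refine h1.mul (Differentiable.differentiableOn ?_)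
    fun_prop
  · rintro ⟨z, w⟩ ⟨hz, hw⟩
    rw [mem_ball, dist_eq_norm] at hz hw
    obtain ⟨h1, h2, h3⟩ := hkey z w hz.le hw.le
    change ‖F (z, w) * Complex.exp (l₁ * z + l₂ * w)‖ ≤ 1
    rw [norm_mul, hexp]
    calc ‖F (z, w)‖ * Real.exp (l₁ * z.re + l₂ * w.re)
        ≤ Real.exp (-(A z.re w.re)) * Real.exp (A z.re w.re) := by
          gcongr
          exact hbound z w h1 h2
      _ = 1 := by rw [← Real.exp_add]; simp
  · intro p hp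
    obtain ⟨h1, h2, h3, h4⟩ := hZ p hp
    refine ⟨h1, h2, h3, h4, ?_⟩
    change F ((p.1 : ℂ), (p.2 : ℂ)) * _ = 0
    rw [hzero p (hZΩ hp), zero_mul]
  · exact hZc

end Run7.h324.MU
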